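import Pool.Agent.Y882.GP.QuadRes

/-!
# Odd integers as an almost prime plus `x (x + 1)`, `x` prime: few exceptions

For every natural `r` and `0 < θ ≤ 1 / 2` with `(1 + θ) (r + 1) > 4`: for all but
`O(X ^ (max (2/3, 1 - θ, 4/(r+1) - θ) + ε))` odd `n ≤ X` there are at least `δ n^θ / (log n)³` primes
`x ≤ n^θ` such that `n = m + x (x + 1)`, where `m ≥ 2` has at most `r` prime factors, all of them
`≥ n^(1/(r+1))`.

For `θ = 1 / 2`: `r = 2` gives `n = P₂ + x (x + 1)` for all but `O(X ^ (5/6 + ε))` odd `n ≤ X`, and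
`r = 3` gives `n = P₃ + x (x + 1)` for all but `O(X ^ (2/3 + ε))` odd `n ≤ X`, with `x` prime.
-/

set_option autoImplicit false

open Finset

namespace Pool.Agent.Results.MP_3f6540_nt.AlmostPrimeFewExceptions

open Classical in
/-- The primes `x ≤ n ^ θ` such that `n = m + x (x + 1)` with `m ≥ 2` having at most `r` prime
factors, counted with multiplicity, all of them at least `n ^ (1 / (r + 1))`. -/
noncomputable def reps (r : ℕ) (θ : ℝ) (n : ℕ) : Finset ℕ :=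
  (range (n + 1)).filter (fun x : ℕ => x.Prime ∧ (x : ℝ) ≤ (n : ℝ) ^ θ ∧
    ∃ m : ℕ, n = m + x * (x + 1) ∧ 2 ≤ m ∧ m.primeFactorsList.length ≤ r ∧
      ∀ q : ℕ, q.Prime → q ∣ m → (n : ℝ) ^ (1 / ((r : ℝ) + 1)) ≤ q)

/-- All but few odd `n ≤ X` are of the form `n = m + x (x + 1)`, `m` an almost prime, with many primes
`x`. -/
theorem result (r : ℕ) (θ ε : ℝ) (hθ0 : 0 < θ) (hθ1 : θ ≤ 1 / 2) (hr : 4 < (1 + θ) * (r + 1))
    (hε : 0 < ε) :
    ∃ δ C : ℝ, 0 < δ ∧ 0 < C ∧ ∀ X : ℕ, 1 ≤ X →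
      (((Icc 1 X).filter (fun n : ℕ => Odd n ∧
        ((reps r θ n).card : ℝ) < δ * (n : ℝ) ^ θ / Real.log n ^ 3)).card : ℝ) ≤
      C * (X : ℝ) ^ (max (max (2 / 3) (1 - θ)) (4 / ((r : ℝ) + 1) - θ) + ε) := by
  classical
  obtain ⟨δ, C, hδ, hC, H⟩ := Pool.Agent.Y882.GP.QR.result 1 0 (by decide) (by decide) r θ ε hθ0 hθ1
    hr hε
  refine ⟨δ, C, hδ, hC, fun X hX => le_trans ?_ (H X hX)⟩
  have hsub : ∀ n : ℕ, Pool.Agent.Y882.GP.QR.reps 1 0 r θ n ⊆ reps r θ n := by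
    intro n x hx
    unfold Pool.Agent.Y882.GP.QR.reps at hx
    unfold reps
    rw [mem_filter] at hx ⊢
    obtain ⟨h0, h1, h2, h3, h4, h5⟩ := hx
    refine ⟨h0, h1, h2, ((n : ℤ) - ((x : ℤ) ^ 2 + 1 * x + 0)).natAbs, ?_, ?_, h4, ?_⟩
    · zify
      rw [abs_of_nonneg (by linarith)]
      ring
    · zify
      rw [abs_of_nonneg (by linarith)]
      exact h3
    · intro q hq hqm
      exact h5 q hq (Int.natCast_dvd.2 hqm)
  have hfin : (Icc 1 X).filter (fun n : ℕ => Odd n ∧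
        ((reps r θ n).card : ℝ) < δ * (n : ℝ) ^ θ / Real.log n ^ 3) ⊆
      (Icc 1 X).filter (fun n : ℕ => Odd n ∧
        ((Pool.Agent.Y882.GP.QR.reps 1 0 r θ n).card : ℝ) < δ * (n : ℝ) ^ θ / Real.log n ^ 3) := by
    intro n hn
    rw [mem_filter] at hn ⊢
    refine ⟨hn.1, hn.2.1, lt_of_le_of_lt ?_ hn.2.2⟩
    exact_mod_cast card_le_card (hsub n)
  exact_mod_cast card_le_card hfin

end Pool.Agent.Results.MP_3f6540_nt.AlmostPrimeFewExceptions
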